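import Pool.Agent.Helper47_BS.StmtsT

/-! # BS squad, module COMB -/

set_option autoImplicit false

namespace Pool.Agent.BS.H85

open Function Filter Topology Set

variable {V : Type}

/-- gluing locally constant functions over a preconnected set -/
theorem glue_const {U : V → Set ℂ} (hUo : ∀ v, IsOpen (U v)) {S : Set ℂ} (hS : IsPreconnected S)
    {P : V → Prop} (hcov : ∀ z ∈ S, ∃ b, P b ∧ z ∈ U b) {χ : V → ℤ}
    (hχ : ∀ b d z, P b → P d → z ∈ S → z ∈ U b → z ∈ U d → χ b = χ d)
    {z z' : ℂ} {b b' : V} (hz : z ∈ S) (hz' : z' ∈ S) (hb : P b) (hb' : P b') (hzb : z ∈ U b)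
    (hzb' : z' ∈ U b') : χ b = χ b' := by
  classical
  have : Nonempty V := ⟨b⟩
  choose! ix hix using hcov
  have hf : ContinuousOn (fun z => χ (ix z)) S := by
    intro y hy
    have h1 : (fun z => χ (ix z)) =ᶠ[𝓝[S] y] fun _ => χ (ix y) := by
      have h2 : U (ix y) ∈ 𝓝[S] y :=
        mem_nhdsWithin_of_mem_nhds ((hUo (ix y)).mem_nhds (hix y hy).2)
      filter_upwards [h2, self_mem_nhdsWithin] with w hw hwS
      exact hχ _ _ w (hix w hwS).1 (hix y hy).1 hwS (hix w hwS).2 hw
    exact (continuousWithinAt_const (b := χ (ix y))).congr_of_eventuallyEq h1 rfl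
  have h3 := hS.constant hf hz hz'
  have h4 := hχ b (ix z) z hb (hix z hz).1 hz hzb (hix z hz).2
  have h5 := hχ b' (ix z') z' hb' (hix z' hz').1 hz' hzb' (hix z' hz').2
  rw [h4, h5]
  exact h3

/-- the exterior of a disc is connected -/
theorem ext_preconnected (R : ℝ) (hR : 0 < R) : IsPreconnected {z : ℂ | R < ‖z‖} := by
  have h1 : {z : ℂ | R < ‖z‖} = (fun p : ℝ × ℝ => (p.1 : ℂ) * Complex.exp (p.2 * Complex.I)) ''
      (Ioi R ×ˢ univ) := by
    ext z
    simp only [mem_ofPred_eq, mem_image, mem_prod, mem_Ioi, mem_univ, and_true, Prod.exists]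
    constructor
    · intro hz
      exact ⟨‖z‖, z.arg, hz, Complex.norm_mul_exp_arg_mul_I z⟩
    · rintro ⟨r, t, hr, rfl⟩
      rw [norm_mul, Complex.norm_exp_ofReal_mul_I, mul_one, Complex.norm_real,
        Real.norm_of_nonneg (hR.trans hr).le]
      exact hr
  rw [h1]
  apply IsPreconnected.image
  · exact isPreconnected_Ioi.prod isPreconnected_univ
  · apply Continuous.continuousOn
    fun_prop

theorem comb (hstar : StarStmt) (hcech : CechStmt) (hface : FaceStmt) : CombStmt := by
  intro V G φ γ hctx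
  classical
  obtain ⟨s1, s2, s3, s4, s5, s6, s7, s8⟩ := hstar V G φ γ hctx
  obtain ⟨f1, f2, f3, f4⟩ := hface V G φ γ hctx
  have hself : ∀ a, φ a ∈ ostar G φ γ a := fun a => Or.inl rfl
  -- adjacent stars meet
  have hmeet : ∀ a b, G.Adj a b → (ostar G φ γ a ∩ ostar G φ γ b).Nonempty := by
    intro a b hab
    obtain ⟨h1, h2, h3, h4, h5⟩ := hctx.emb.arc a b hab
    have hm : (1 / 2 : ℝ) ∈ Icc (0 : ℝ) 1 := ⟨by norm_num, by norm_num⟩
    have h0m : (0 : ℝ) ∈ Icc (0 : ℝ) 1 := ⟨le_rfl, by norm_num⟩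
    have h1m : (1 : ℝ) ∈ Icc (0 : ℝ) 1 := ⟨by norm_num, le_rfl⟩
    have hz : γ a b (1 / 2) ∈ edg γ a b := ⟨1 / 2, hm, rfl⟩
    have hza : γ a b (1 / 2) ≠ φ a := by
      rw [← h3]
      intro h
      have := h2 hm h0m h
      norm_num at this
    have hzb : γ a b (1 / 2) ≠ φ b := by
      rw [← h4]
      intro h
      have := h2 hm h1m h
      norm_num at this
    refine ⟨γ a b (1 / 2), Or.inr (Or.inl ⟨b, hab, hz, hzb⟩),
      Or.inr (Or.inl ⟨a, hab.symm, ?_, hza⟩)⟩
    have : edg γ a b = edg γ b a := h5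
    rw [← this]
    exact hz
  refine ⟨?_, ?_, ?_⟩
  · -- cocycles
    intro c hanti htri
    set c' : V → V → ℤ := fun u v => if G.Adj u v then c u v else 0 with hc'
    have h0 : ∀ u, c' u u = 0 := fun u => if_neg (G.loopless.irrefl u)
    have hadj : ∀ u v, G.Adj u v → c' u v = c u v := fun u v h => if_pos h
    have hanti' : ∀ u v, c' v u = - c' u v := by
      intro u v
      by_cases h : G.Adj u v
      · rw [hadj u v h, hadj v u h.symm, hanti u v h]
      · have h' : ¬ G.Adj v u := fun h'' => h h''.symm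
        simp only [hc', if_neg h, if_neg h', neg_zero]
    obtain ⟨χ, hχ⟩ := hcech V (ostar G φ γ) s1 s2 s3 s4 c' (by
      intro u v w hne
      by_cases huv : u = v
      · subst huv
        rw [h0, zero_add]
      by_cases hvw : v = w
      · subst hvw
        rw [h0, add_zero]
      by_cases hwu : w = u
      · subst hwu
        rw [h0, hanti' w v]
        ring
      have a1 : G.Adj u v := s6 u v huv (hne.mono (fun z hz => ⟨hz.1.1, hz.1.2⟩))
      have a2 : G.Adj v w := s6 v w hvw (hne.mono (fun z hz => ⟨hz.1.2, hz.2⟩))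
      have a3 : G.Adj w u := s6 w u hwu (hne.mono (fun z hz => ⟨hz.2, hz.1.1⟩))
      rw [hadj u v a1, hadj v w a2, hadj u w a3.symm]
      rcases s7 u v w huv hvw hwu hne with h | h
      · have h1 := htri u v w h
        rw [hanti u w a3.symm] at h1
        linarith
      · have h1 := htri u w v h
        rw [hanti v w a2, hanti u v a1] at h1
        linarith)
    exact ⟨χ, fun a b hab => by rw [← hadj a b hab]; exact hχ a b (hmeet a b hab)⟩
  · -- one end
    intro χ hbad
    -- open stars are bounded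
    have hbdd : ∀ a, Bornology.IsBounded (ostar G φ γ a) := by
      intro a
      have e1 : ostar G φ γ a ⊆ {φ a} ∪ (⋃ b ∈ G.neighborSet a, edg γ a b)
          ∪ ⋃ f ∈ {f | ∃ z ∈ away G γ, f = face G γ z ∧ (f ∩ Metric.closedBall (φ a) 1).Nonempty},
            f := by
        rintro z (h | ⟨b, hb, hz, -⟩ | ⟨hz, hcl⟩)
        · exact Or.inl (Or.inl h)
        · exact Or.inl (Or.inr (mem_iUnion₂.2 ⟨b, hb, hz⟩))
        · refine Or.inr (mem_iUnion₂.2 ⟨face G γ z, ⟨z, hz, rfl, ?_⟩, ?_⟩)
          · obtain ⟨y, hy1, hy2⟩ := mem_closure_iff.1 hcl (Metric.ball (φ a) 1) Metric.isOpen_ball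
              (Metric.mem_ball_self one_pos)
            exact ⟨y, hy2, Metric.ball_subset_closedBall hy1⟩
          · exact mem_connectedComponentIn hz
      refine Bornology.IsBounded.subset ?_ e1
      refine Bornology.IsBounded.union (Bornology.IsBounded.union ?_ ?_) ?_
      · exact Bornology.isBounded_singleton
      · rw [Bornology.isBounded_biUnion (hctx.locfin a)]
        intro b hb
        have h1 := (hctx.emb.arc a b hb).1
        exact (isCompact_Icc.image_of_continuousOn h1).isBounded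
      · rw [Bornology.isBounded_biUnion (f4 _ (isCompact_closedBall _ _))]
        rintro f ⟨z, hz, rfl, -⟩
        obtain ⟨a', b', c', h1, h2, h3, h4⟩ := f1 z hz
        exact (f2 z hz a' b' c' h1 h2 h3 h4).2
    obtain ⟨R, hR0, hR⟩ : ∃ R : ℝ, 0 < R ∧ ∀ p ∈ {p : V × V | G.Adj p.1 p.2 ∧ χ p.1 ≠ χ p.2},
        ∀ z ∈ ostar G φ γ p.1, ‖z‖ ≤ R := by
      have h1 : Bornology.IsBounded (⋃ p ∈ {p : V × V | G.Adj p.1 p.2 ∧ χ p.1 ≠ χ p.2},
          ostar G φ γ p.1) := by
        rw [Bornology.isBounded_biUnion hbad]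
        exact fun p _ => hbdd p.1
      obtain ⟨R, hR⟩ := isBounded_iff_forall_norm_le.1 h1
      exact ⟨max R 1, lt_max_of_lt_right one_pos, fun p hp z hz =>
        (hR z (mem_iUnion₂.2 ⟨p, hp, hz⟩)).trans (le_max_left _ _)⟩
    have hχ : ∀ b d z, True → True → z ∈ {z : ℂ | R < ‖z‖} → z ∈ ostar G φ γ b →
        z ∈ ostar G φ γ d → χ b = χ d := by
      intro b d z _ _ hz hb hd
      by_contra hne
      have hbd : b ≠ d := fun h => hne (by rw [h])
      have hadj := s6 b d hbd ⟨z, hb, hd⟩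
      have := hR (b, d) ⟨hadj, hne⟩ z hb
      exact absurd hz (not_lt.2 this)
    obtain ⟨b0, hb0⟩ := s3 ((R + 1 : ℝ) : ℂ)
    have hz0 : ((R + 1 : ℝ) : ℂ) ∈ {z : ℂ | R < ‖z‖} := by
      change R < ‖((R + 1 : ℝ) : ℂ)‖
      rw [Complex.norm_real, Real.norm_of_nonneg (by linarith)]
      linarith
    refine ⟨χ b0, ?_⟩
    have hfin := s4.finite_nonempty_inter_compact (isCompact_closedBall (0 : ℂ) R)
    refine hfin.subset ?_
    intro v hv
    refine ⟨φ v, hself v, ?_⟩
    rw [mem_closedBall_zero_iff]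
    by_contra hlt
    push Not at hlt
    exact hv (glue_const s1 (ext_preconnected R hR0) (P := fun _ => True)
      (fun z _ => by obtain ⟨a, ha⟩ := s3 z; exact ⟨a, trivial, ha⟩) hχ
      (show φ v ∈ {z : ℂ | R < ‖z‖} from hlt) hz0 trivial trivial (hself v) hb0)
  · -- two-connectedness
    intro a χ hχ b d hb hd
    have hconn : IsPreconnected ({φ a}ᶜ : Set ℂ) :=
      (isConnected_compl_singleton_of_one_lt_rank (by
        rw [Complex.rank_real_complex]; exact Nat.one_lt_ofNat) (φ a)).isPreconnected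
    have hinj := hctx.emb.inj
    refine glue_const s1 hconn (P := fun b => b ≠ a) ?_ ?_ (z := φ b) (z' := φ d) ?_ ?_ hb hd
      (hself b) (hself d)
    · intro z hz
      obtain ⟨b', hb'⟩ := s3 z
      by_cases h : b' = a
      · subst h
        exact s8 b' z hb' hz
      · exact ⟨b', h, hb'⟩
    · intro b' d' z hb' hd' hz h1 h2
      by_cases h : b' = d'
      · rw [h]
      · exact hχ b' d' (s6 b' d' h ⟨z, h1, h2⟩) hb' hd'
    · exact fun h => hb (hinj h)
    · exact fun h => hd (hinj h)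

end Pool.Agent.BS.H85
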