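import Pool.Agent.Helper47_BS.StmtsT

/-! # BS squad, module OPP -/

set_option autoImplicit false

namespace Pool.Agent.BS.H85

open Function Filter Topology Set

theorem arc_right {K : Set ℂ} {x y : ℂ} (h : IsArc K x y) : y ∈ K := by
  obtain ⟨α, -, -, -, h1, h2⟩ := h
  rw [← h2, ← h1]
  exact ⟨1, ⟨zero_le_one, le_rfl⟩, rfl⟩

theorem arc_left {K : Set ℂ} {x y : ℂ} (h : IsArc K x y) : x ∈ K := by
  obtain ⟨α, -, -, h1, -, h2⟩ := h
  rw [← h2, ← h1]
  exact ⟨0, ⟨le_rfl, zero_le_one⟩, rfl⟩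

theorem opp (hdraw : DrawStmt) (hface : FaceStmt) (hinc : IncStmt) (hwnd : WndStmt)
    (hjor : JordanStmt) : OppStmt := by
  intro V G φ γ hctx
  obtain ⟨p1, p2, p3, hop, hde, hJ1, hJ2⟩ := hdraw V G φ γ hctx
  obtain ⟨f1, f2, f3, f4⟩ := hface V G φ γ hctx
  -- concatenated edges
  have hint : ∀ a b c, G.Adj a b → G.Adj b c → G.Adj c a → edg γ a c ∩ edg γ c b = {φ c} := by
    intro a b c hab hbc hca
    have hne1 : a ≠ b := hab.ne
    have hne3 : c ≠ a := hca.ne
    apply Subset.antisymm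
    · rintro z ⟨h1, h2⟩
      rcases p3 a c c b hca.symm hbc.symm z h1 h2 with h | h | ⟨w, hw, h3, h4⟩
      · exact absurd h.1 hne3.symm
      · exact absurd h.1 hne1
      · rcases h3 with rfl | rfl
        · rcases h4 with h4 | h4
          · exact absurd h4 hne3.symm
          · exact absurd h4 hne1
        · exact hw
    · rintro z rfl
      exact ⟨arc_right (p1 a c hca.symm).1, arc_left (p1 c b hbc.symm).1⟩
  have haway : ∀ z ∈ away G γ, ∀ a b, G.Adj a b → z ∉ edg γ a b := fun z hz a b hab => hz a b hab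
  -- reversal
  have hrev : ∀ a b z, G.Adj a b → z ∉ edg γ a b →
      inc (edg γ b a) (φ b) (φ a) z = - inc (edg γ a b) (φ a) (φ b) z := by
    intro a b z hab hz
    rw [← (p1 a b hab).2]
    exact (hinc _ _ _ (p1 a b hab).1 z hz).2.2.1
  -- sum along two edges
  have hsum : ∀ a b c z, G.Adj a b → G.Adj b c → G.Adj c a → z ∉ edg γ a c → z ∉ edg γ c b →
      inc (edg γ a c ∪ edg γ c b) (φ a) (φ b) z
        = inc (edg γ a c) (φ a) (φ c) z + inc (edg γ c b) (φ c) (φ b) z := by
    intro a b c z hab hbc hca h1 h2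
    exact (hinc _ _ _ (p1 a c hca.symm).1 z h1).2.2.2.2 _ _ (p1 c b hbc.symm).1
      (hint a b c hab hbc hca) h2
  have htrg : ∀ a b c, G.Adj a b → G.Adj b c → G.Adj c a →
      edg γ a b ∪ (edg γ a c ∪ edg γ c b) = trg γ a b c := by
    intro a b c hab hbc hca
    unfold trg
    rw [(p1 c a hca).2, (p1 b c hbc).2]
    ext y
    simp only [mem_union]
    tauto
  have hnot : ∀ a b c z, z ∉ trg γ a b c → z ∉ edg γ a b ∧ z ∉ edg γ b c ∧ z ∉ edg γ c a := by
    intro a b c z hz
    unfold trg at hz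
    simp only [mem_union, not_or] at hz
    exact ⟨hz.1.1, hz.1.2, hz.2⟩
  have hw : ∀ a b c z, G.Adj a b → G.Adj b c → G.Adj c a → z ∉ trg γ a b c →
      wnd (edg γ a b) (edg γ a c ∪ edg γ c b) (φ a) (φ b) z = wtr φ γ a b c z := by
    intro a b c z hab hbc hca hz
    obtain ⟨h1, h2, h3⟩ := hnot a b c z hz
    have h2' : z ∉ edg γ c b := by rw [← (p1 b c hbc).2]; exact h2
    have h3' : z ∉ edg γ a c := by rw [← (p1 c a hca).2]; exact h3
    unfold wnd wtr
    rw [hsum a b c z hab hbc hca h3' h2', hrev c a z hca h3, hrev b c z hbc h2]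
    ring
  intro a b c hab hbc hca z hz hfr
  have hza : ∀ a b c, G.Adj a b → G.Adj b c → G.Adj c a → ∀ z ∈ away G γ, z ∉ trg γ a b c := by
    intro a b c hab hbc hca z hz h
    rcases h with (h | h) | h
    · exact haway z hz _ _ hab h
    · exact haway z hz _ _ hbc h
    · exact haway z hz _ _ hca h
  have hzt := hza a b c hab hbc hca z hz
  obtain ⟨h1, h2, h3⟩ := hnot a b c z hzt
  have hJ := hJ1 a b c hab hbc hca
  have hT := htrg a b c hab hbc hca
  obtain ⟨w1, w2, w3⟩ := hwnd _ _ _ _ hJ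
  obtain ⟨j1, j2, j3⟩ := hjor _ _ _ _ hJ
  rw [hT] at w1 w2 w3 j1 j2
  obtain ⟨hfc, hfb⟩ := f2 z hz a b c hab hbc hca hfr
  have hbd : Bornology.IsBounded (connectedComponentIn (trg γ a b c)ᶜ z) := hfc ▸ hfb
  have hne0 : wtr φ γ a b c z ≠ 0 := by
    rw [← hw a b c z hab hbc hca hzt]
    exact j1 z hzt hbd
  refine ⟨?_, ?_, ?_, ?_, ?_⟩
  · obtain ⟨n, hn⟩ := w1 z hzt
    rw [hw a b c z hab hbc hca hzt] at hn
    refine ⟨n, ?_, hn⟩
    rintro rfl
    apply hne0
    rw [hn]
    simp
  · unfold wtr; ring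
  · unfold wtr
    rw [hrev c a z hca h3, hrev b c z hbc h2, hrev a b z hab h1]
    ring
  · intro z' hz'
    have hz'c : z' ∈ connectedComponentIn (trg γ a b c)ᶜ z := hfc ▸ hz'
    have hz't : z' ∉ trg γ a b c := connectedComponentIn_subset _ _ hz'c
    rw [← hw a b c z' hab hbc hca hz't, ← hw a b c z hab hbc hca hzt]
    exact w2 z hzt z' hz'c
  · intro c' hbc' hca' z' hz' hfr' hface_ne
    have hcc : c ≠ c' := by
      rintro rfl
      exact hface_ne (f3 z hz z' hz' (hfr.trans hfr'.symm))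
    have hz't := hza a b c' hab hbc' hca' z' hz'
    have hz't2 := hza a b c hab hbc hca z' hz'
    have hzt2 := hza a b c' hab hbc' hca' z hz
    have hJ' := hJ1 a b c' hab hbc' hca'
    have hT' := htrg a b c' hab hbc' hca'
    obtain ⟨w1', w2', w3'⟩ := hwnd _ _ _ _ hJ'
    obtain ⟨j1', j2', j3'⟩ := hjor _ _ _ _ hJ'
    rw [hT'] at w1' w2' w3' j1' j2'
    obtain ⟨hfc', hfb'⟩ := f2 z' hz' a b c' hab hbc' hca' hfr'
    have hbd' : Bornology.IsBounded (connectedComponentIn (trg γ a b c')ᶜ z') := hfc' ▸ hfb'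
    have hne0' : wtr φ γ a b c' z' ≠ 0 := by
      rw [← hw a b c' z' hab hbc' hca' hz't]
      exact j1' z' hz't hbd'
    -- faces are disjoint
    have hdis : z ∉ face G γ z' := by
      intro h
      apply hface_ne
      exact (connectedComponentIn_eq h).symm
    have hdis' : z' ∉ face G γ z := by
      intro h
      apply hface_ne
      exact connectedComponentIn_eq h
    have hzero : wtr φ γ a b c' z = 0 := by
      rw [← hw a b c' z hab hbc' hca' hzt2]
      apply w3' z hzt2
      intro hb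
      apply hdis
      have h4 := j2' z hzt2 z' hz't hb hbd'
      rw [hfc', ← h4]
      exact mem_connectedComponentIn hzt2
    have hzero' : wtr φ γ a b c z' = 0 := by
      rw [← hw a b c z' hab hbc hca hz't2]
      apply w3 z' hz't2
      intro hb
      apply hdis'
      have h4 := j2 z' hz't2 z hzt hb hbd
      rw [hfc, ← h4]
      exact mem_connectedComponentIn hz't2
    -- the quadrilateral
    have hQ := hJ2 a b c c' hab hbc hca hbc' hca' hcc
    obtain ⟨q1, q2, q3⟩ := hwnd _ _ _ _ hQ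
    obtain ⟨r1, r2, r3⟩ := hjor _ _ _ _ hQ
    have hdiff : ∀ y ∈ away G γ, wnd (edg γ a c ∪ edg γ c b) (edg γ a c' ∪ edg γ c' b) (φ a) (φ b) y
        = wtr φ γ a b c' y - wtr φ γ a b c y := by
      intro y hy
      rw [← hw a b c' y hab hbc' hca' (hza a b c' hab hbc' hca' y hy),
        ← hw a b c y hab hbc hca (hza a b c hab hbc hca y hy)]
      unfold wnd
      ring
    have hyQ : ∀ y ∈ away G γ,
        y ∉ (edg γ a c ∪ edg γ c b) ∪ (edg γ a c' ∪ edg γ c' b) := by
      intro y hy h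
      rcases h with (h | h) | (h | h)
      · exact haway y hy _ _ hca.symm h
      · exact haway y hy _ _ hbc.symm h
      · exact haway y hy _ _ hca'.symm h
      · exact haway y hy _ _ hbc'.symm h
    have hbz : Bornology.IsBounded (connectedComponentIn
        ((edg γ a c ∪ edg γ c b) ∪ (edg γ a c' ∪ edg γ c' b))ᶜ z) := by
      by_contra hcon
      have h5 := q3 z (hyQ z hz) hcon
      rw [hdiff z hz, hzero, zero_sub, neg_eq_zero] at h5
      exact hne0 h5
    have hbz' : Bornology.IsBounded (connectedComponentIn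
        ((edg γ a c ∪ edg γ c b) ∪ (edg γ a c' ∪ edg γ c' b))ᶜ z') := by
      by_contra hcon
      have h5 := q3 z' (hyQ z' hz') hcon
      rw [hdiff z' hz', hzero', sub_zero] at h5
      exact hne0' h5
    have hsame := r2 z (hyQ z hz) z' (hyQ z' hz') hbz hbz'
    have hmem : z' ∈ connectedComponentIn
        ((edg γ a c ∪ edg γ c b) ∪ (edg γ a c' ∪ edg γ c' b))ᶜ z := by
      rw [hsame]
      exact mem_connectedComponentIn (hyQ z' hz')
    have h6 := q2 z (hyQ z hz) z' hmem
    rw [hdiff z hz, hdiff z' hz', hzero, hzero', sub_zero, zero_sub] at h6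
    exact h6

end Pool.Agent.BS.H85
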