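import Pool.Agent.Helper47_BS.StmtsT

/-! # BS squad, module CECH -/

set_option autoImplicit false

namespace Pool.Agent.BS.H85

open Function Filter Topology Set

/-- a continuous function on a preconnected set with values in the integers is constant -/
theorem const_of_int {U : Set ℂ} (hU : IsPreconnected U) {k : ℂ → ℂ} (hk : ContinuousOn k U)
    (hint : ∀ z ∈ U, ∃ n : ℤ, k z = n) : ∃ n : ℤ, ∀ z ∈ U, k z = n := by
  rcases U.eq_empty_or_nonempty with h0 | ⟨z0, hz0⟩
  · exact ⟨0, fun z hz => by rw [h0] at hz; exact absurd hz (notMem_empty z)⟩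
  obtain ⟨n0, hn0⟩ := hint z0 hz0
  refine ⟨n0, fun z hz => ?_⟩
  obtain ⟨n, hn⟩ := hint z hz
  have him : IsPreconnected ((fun z => (k z).re) '' U) :=
    hU.image _ (Complex.continuous_re.comp_continuousOn hk)
  have hoc := him.ordConnected
  have hall : ∀ y ∈ (fun z => (k z).re) '' U, ∃ m : ℤ, y = m := by
    rintro y ⟨w, hw, rfl⟩
    obtain ⟨m, hm⟩ := hint w hw
    exact ⟨m, by dsimp only; rw [hm]; simp⟩
  have h1 : (n : ℝ) ∈ (fun z => (k z).re) '' U := ⟨z, hz, by dsimp only; rw [hn]; simp⟩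
  have h2 : (n0 : ℝ) ∈ (fun z => (k z).re) '' U := ⟨z0, hz0, by dsimp only; rw [hn0]; simp⟩
  have key : ∀ a b : ℤ, (a : ℝ) ∈ (fun z => (k z).re) '' U → (b : ℝ) ∈ (fun z => (k z).re) '' U →
      ¬ a < b := by
    intro a b ha hb hab
    have h3 : (a : ℝ) + 1 / 2 ∈ (fun z => (k z).re) '' U := by
      apply hoc.out ha hb
      have : (a : ℝ) + 1 ≤ b := by exact_mod_cast hab
      constructor <;> linarith
    obtain ⟨m, hm⟩ := hall _ h3
    have h4 : (2 * a + 1 : ℤ) = 2 * m := by
      have : (2 * a + 1 : ℝ) = 2 * m := by linarith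
      exact_mod_cast this
    omega
  have : n = n0 := le_antisymm (not_lt.1 (key n0 n h2 h1)) (not_lt.1 (key n n0 h1 h2))
  rw [hn, this]

theorem cech (hlog : LogStmt) : CechStmt := by
  intro V U hUo hUc hcov hlf c hc
  obtain ⟨ψ, hψ⟩ := PartitionOfUnity.exists_isSubordinate_of_locallyFinite isClosed_univ U hUo hlf
    (fun z _ => mem_iUnion.2 (hcov z))
  have hfin : ∀ z, (support fun w => ψ w z).Finite := fun z =>
    (ψ.locallyFinite.point_finite z)
  have hsub : ∀ w z, ψ w z ≠ 0 → z ∈ U w := fun w z h =>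
    hψ w (subset_tsupport _ h)
  set h : V → ℂ → ℝ := fun v z => ∑ᶠ w, ψ w z • (c v w : ℝ) with hh
  have hcont : ∀ v, Continuous (h v) := by
    intro v
    exact ψ.continuous_finsum_smul (g := fun w _ => (c v w : ℝ)) fun w z _ => continuousAt_const
  have hdiff : ∀ u v z, z ∈ U u → z ∈ U v → h u z - h v z = c u v := by
    intro u v z hu hv
    have hf : ∀ v, (support fun w => ψ w z • (c v w : ℝ)).Finite := fun v =>
      (hfin z).subset (fun w hw h0 => hw (by
        change ψ w z • (c v w : ℝ) = 0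
        rw [show ψ w z = 0 from h0, zero_smul]))
    have h1 : h u z - h v z = ∑ᶠ w, (ψ w z • (c u w : ℝ) - ψ w z • (c v w : ℝ)) :=
      (finsum_sub_distrib (hf u) (hf v)).symm
    rw [h1]
    have h2 : ∀ w, ψ w z • (c u w : ℝ) - ψ w z • (c v w : ℝ) = ψ w z • (c u v : ℝ) := by
      intro w
      by_cases h0 : ψ w z = 0
      · simp [h0]
      · have h3 := hc u v w ⟨z, ⟨hu, hv⟩, hsub w z h0⟩
        rw [← h3]
        push_cast
        simp only [smul_eq_mul]
        ring
    simp only [h2]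
    have h4 : ∑ᶠ w, ψ w z • (c u v : ℝ) = (∑ᶠ w, ψ w z) • (c u v : ℝ) :=
      (finsum_smul (fun w => ψ w z) (c u v : ℝ)).symm
    rw [h4, ψ.sum_eq_one (mem_univ z), one_smul]
  choose idx hidx using hcov
  set F : ℂ → ℂ := fun z => Complex.exp (2 * Real.pi * Complex.I * (h (idx z) z : ℂ)) with hF
  have hFv : ∀ v z, z ∈ U v → F z = Complex.exp (2 * Real.pi * Complex.I * (h v z : ℂ)) := by
    intro v z hz
    have h1 := hdiff (idx z) v z (hidx z) hz
    have h2 : (h (idx z) z : ℂ) = (h v z : ℂ) + ((c (idx z) v : ℤ) : ℂ) := by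
      have : h (idx z) z = h v z + (c (idx z) v : ℝ) := by linarith
      rw [this]; push_cast; ring
    simp only [hF]
    rw [h2, mul_add, Complex.exp_add]
    have h3 : Complex.exp (2 * Real.pi * Complex.I * ((c (idx z) v : ℤ) : ℂ)) = 1 := by
      rw [Complex.exp_eq_one_iff]
      exact ⟨c (idx z) v, by ring⟩
    rw [h3, mul_one]
  have hFc : Continuous F := by
    rw [continuous_iff_continuousAt]
    intro z
    have h1 : ContinuousAt (fun z => Complex.exp (2 * Real.pi * Complex.I * (h (idx z) z : ℂ))) z ↔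
        ContinuousAt F z := Iff.rfl
    have h2 : ContinuousAt (fun y => Complex.exp (2 * Real.pi * Complex.I * (h (idx z) y : ℂ))) z := by
      have := (hcont (idx z)).continuousAt (x := z)
      fun_prop
    refine h2.congr ?_
    filter_upwards [(hUo (idx z)).mem_nhds (hidx z)] with y hy
    exact (hFv (idx z) y hy).symm
  obtain ⟨g, hg, hgF⟩ := hlog F hFc (fun z => Complex.exp_ne_zero _)
  have hconst : ∀ v, ∃ n : ℤ, ∀ z ∈ U v, (h v z : ℂ) - g z / (2 * Real.pi * Complex.I) = n := by
    intro v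
    apply const_of_int (hUc v)
    · have := hcont v
      apply Continuous.continuousOn
      fun_prop
    · intro z hz
      have h1 : Complex.exp (2 * Real.pi * Complex.I * (h v z : ℂ) - g z) = 1 := by
        rw [Complex.exp_sub, hgF z, ← hFv v z hz]
        exact div_self (Complex.exp_ne_zero _)
      rw [Complex.exp_eq_one_iff] at h1
      obtain ⟨n, hn⟩ := h1
      refine ⟨n, ?_⟩
      have h2 : (2 * (Real.pi : ℂ) * Complex.I) ≠ 0 := Complex.two_pi_I_ne_zero
      field_simp
      linear_combination hn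
  choose χ hχ using hconst
  refine ⟨χ, fun u v ⟨z, hu, hv⟩ => ?_⟩
  have h1 := hχ u z hu
  have h2 := hχ v z hv
  have h3 := hdiff u v z hu hv
  have h4 : ((c u v : ℤ) : ℂ) = ((χ u - χ v : ℤ) : ℂ) := by
    push_cast
    rw [← h1, ← h2]
    have : ((c u v : ℝ) : ℂ) = (h u z : ℂ) - (h v z : ℂ) := by rw [← h3]; push_cast; ring
    have h5 : ((c u v : ℤ) : ℂ) = ((c u v : ℝ) : ℂ) := by push_cast; rfl
    rw [h5, this]
    ring
  exact_mod_cast h4

end Pool.Agent.BS.H85
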