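import Pool.Agent.Helper47_BS.StmtsT

/-! # BS squad, module DRAW -/

set_option autoImplicit false

namespace Pool.Agent.BS.H85

open Function Filter Topology Set

theorem draw (hop : ArcOpStmt) (hcompl : ArcComplStmt) : DrawStmt := by
  intro V G φ γ hctx
  classical
  obtain ⟨-, o2, o3, -, -⟩ := hop
  have hE := hctx.emb
  have p1 : ∀ a b, G.Adj a b → IsArc (edg γ a b) (φ a) (φ b) ∧ edg γ a b = edg γ b a := by
    intro a b hab
    obtain ⟨h1, h2, h3, h4, h5⟩ := hE.arc a b hab
    exact ⟨⟨γ a b, h1, h2, h3, h4, rfl⟩, h5⟩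
  have p2 : ∀ a b c, G.Adj a b → φ c ∈ edg γ a b → c = a ∨ c = b := by
    rintro a b c hab ⟨s, hs, h⟩
    exact hE.vtx a b c hab s hs h
  have p3 : ∀ a b c d, G.Adj a b → G.Adj c d → ∀ z ∈ edg γ a b, z ∈ edg γ c d →
      (a = c ∧ b = d) ∨ (a = d ∧ b = c) ∨ ∃ w, z = φ w ∧ (w = a ∨ w = b) ∧ (w = c ∨ w = d) := by
    rintro a b c d hab hcd z ⟨s, hs, rfl⟩ ⟨t, ht, hts⟩
    rcases hE.cross a b c d hab hcd s hs t ht hts.symm with h | h | ⟨w, hw⟩
    · exact Or.inl h
    · exact Or.inr (Or.inl h)
    · refine Or.inr (Or.inr ⟨w, hw, ?_, ?_⟩)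
      · exact p2 a b w hab (hw ▸ ⟨s, hs, rfl⟩)
      · exact p2 c d w hcd (hw ▸ ⟨t, ht, hts⟩)
  have hmem : ∀ a b, G.Adj a b → φ a ∈ edg γ a b ∧ φ b ∈ edg γ a b := by
    intro a b hab
    obtain ⟨-, -, h3, h4, -⟩ := o2 _ _ _ (p1 a b hab).1
    exact ⟨h3, h4⟩
  -- the family of the edges
  set I := {p : V × V // G.Adj p.1 p.2} with hI
  set E : I → Set ℂ := fun p => edg γ p.1.1 p.1.2 with hEd
  have hclosed : ∀ p, IsClosed (E p) := fun p => (o2 _ _ _ (p1 _ _ p.2).1).1.isClosed
  have hlf : LocallyFinite E := by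
    intro z
    refine ⟨Metric.ball z 1, Metric.ball_mem_nhds z one_pos, ?_⟩
    have hf := hE.fin (Metric.closedBall z 1) (isCompact_closedBall _ _)
    have : {p : I | (E p ∩ Metric.ball z 1).Nonempty} ⊆ Subtype.val ⁻¹'
        {p : V × V | G.Adj p.1 p.2 ∧ (γ p.1 p.2 '' Icc 0 1 ∩ Metric.closedBall z 1).Nonempty} := by
      rintro p ⟨y, hy1, hy2⟩
      exact ⟨p.2, y, hy1, Metric.ball_subset_closedBall hy2⟩
    exact (hf.preimage Subtype.val_injective.injOn).subset this
  have haway : away G γ = (⋃ p, E p)ᶜ := by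
    ext y
    simp only [away, mem_ofPred_eq, mem_compl_iff, mem_iUnion, not_exists]
    constructor
    · intro h p
      exact h _ _ p.2
    · intro h u v huv
      exact h ⟨(u, v), huv⟩
  refine ⟨p1, p2, p3, ?_, ?_, ?_, ?_⟩
  · rw [haway, isOpen_compl_iff]
    exact hlf.isClosed_iUnion hclosed
  · -- density
    rw [haway]
    intro z
    rw [mem_closure_iff_nhds_basis Metric.nhds_basis_ball]
    intro ε hε
    have hfin : {p : I | (E p ∩ Metric.closedBall z ε).Nonempty}.Finite :=
      hlf.finite_nonempty_inter_compact (isCompact_closedBall _ _)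
    have hd : Dense (⋂ p ∈ {p : I | (E p ∩ Metric.closedBall z ε).Nonempty}, (E p)ᶜ) := by
      apply dense_biInter_of_isOpen
      · exact fun p _ => (hclosed p).isOpen_compl
      · exact hfin.countable
      · intro p _
        rw [← interior_eq_empty_iff_dense_compl]
        exact (hcompl _ _ _ (p1 _ _ p.2).1).2
    obtain ⟨y, hy1, hy2⟩ := hd.exists_mem_open Metric.isOpen_ball ⟨z, Metric.mem_ball_self hε⟩
    refine ⟨y, ?_, hy2⟩
    rw [mem_compl_iff, mem_iUnion]
    rintro ⟨p, hp⟩
    exact mem_iInter₂.1 hy1 p ⟨y, hp, Metric.ball_subset_closedBall hy2⟩ hp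
  · -- triangles
    intro a b c hab hbc hca
    have hne1 : a ≠ b := hab.ne
    have hne2 : b ≠ c := hbc.ne
    have hne3 : c ≠ a := hca.ne
    refine ⟨(p1 a b hab).1, ?_, ?_⟩
    · refine o3 _ _ _ (φ c) _ (p1 a c hca.symm).1 (p1 c b hbc.symm).1 ?_
      apply Subset.antisymm
      · rintro z ⟨h1, h2⟩
        rcases p3 a c c b hca.symm hbc.symm z h1 h2 with h | h | ⟨w, hw, h3, h4⟩
        · exact absurd h.1 hne3.symm
        · exact absurd h.1 hne1
        · rcases h3 with rfl | rfl
          · rcases h4 with h4 | h4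
            · exact absurd h4 hne3.symm
            · exact absurd h4 hne1
          · exact hw
      · rintro z rfl
        exact ⟨(hmem a c hca.symm).2, (hmem c b hbc.symm).1⟩
    · apply Subset.antisymm
      · rintro z ⟨h1, h2 | h2⟩
        · rcases p3 a b a c hab hca.symm z h1 h2 with h | h | ⟨w, hw, h3, h4⟩
          · exact absurd h.2 hne2
          · exact absurd h.1.symm hne3
          · rcases h4 with rfl | rfl
            · exact Or.inl hw
            · rcases h3 with h3 | h3
              · exact absurd h3 hne3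
              · exact absurd h3.symm hne2
        · rcases p3 a b c b hab hbc.symm z h1 h2 with h | h | ⟨w, hw, h3, h4⟩
          · exact absurd h.1.symm hne3
          · exact absurd h.1 hne1
          · rcases h4 with rfl | rfl
            · rcases h3 with h3 | h3
              · exact absurd h3 hne3
              · exact absurd h3.symm hne2
            · exact Or.inr hw
      · rintro z (rfl | rfl)
        · exact ⟨(hmem a b hab).1, Or.inl (hmem a c hca.symm).1⟩
        · exact ⟨(hmem a b hab).2, Or.inr (hmem c b hbc.symm).2⟩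
  · -- two triangles
    have harc : ∀ a b c, G.Adj a b → G.Adj b c → G.Adj c a →
        IsArc (edg γ a c ∪ edg γ c b) (φ a) (φ b) := by
      intro a b c hab hbc hca
      have hne1 : a ≠ b := hab.ne
      have hne3 : c ≠ a := hca.ne
      refine o3 _ _ _ (φ c) _ (p1 a c hca.symm).1 (p1 c b hbc.symm).1 ?_
      apply Subset.antisymm
      · rintro z ⟨h1, h2⟩
        rcases p3 a c c b hca.symm hbc.symm z h1 h2 with h | h | ⟨w, hw, h3, h4⟩
        · exact absurd h.1 hne3.symm
        · exact absurd h.1 hne1
        · rcases h3 with rfl | rfl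
          · rcases h4 with h4 | h4
            · exact absurd h4 hne3.symm
            · exact absurd h4 hne1
          · exact hw
      · rintro z rfl
        exact ⟨(hmem a c hca.symm).2, (hmem c b hbc.symm).1⟩
    intro a b c c' hab hbc hca hbc' hca' hcc
    have n1 : a ≠ b := hab.ne
    have n2 : b ≠ c := hbc.ne
    have n3 : c ≠ a := hca.ne
    have n4 : b ≠ c' := hbc'.ne
    have n5 : c' ≠ a := hca'.ne
    refine ⟨harc a b c hab hbc hca, harc a b c' hab hbc' hca', ?_⟩
    apply Subset.antisymm
    · rintro z ⟨h1 | h1, h2 | h2⟩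
      · rcases p3 a c a c' hca.symm hca'.symm z h1 h2 with h | h | ⟨w, hw, h3, h4⟩
        · exact absurd h.2 hcc
        · exact absurd h.1.symm n5
        · rcases h3 with rfl | rfl
          · exact Or.inl hw
          · rcases h4 with h4 | h4
            · exact absurd h4 n3
            · exact absurd h4 hcc
      · rcases p3 a c c' b hca.symm hbc'.symm z h1 h2 with h | h | ⟨w, hw, h3, h4⟩
        · exact absurd h.1.symm n5
        · exact absurd h.1 n1
        · rcases h3 with rfl | rfl
          · exact Or.inl hw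
          · rcases h4 with h4 | h4
            · exact absurd h4 hcc
            · exact absurd h4.symm n2
      · rcases p3 c b a c' hbc.symm hca'.symm z h1 h2 with h | h | ⟨w, hw, h3, h4⟩
        · exact absurd h.1 n3
        · exact absurd h.1 hcc
        · rcases h3 with rfl | rfl
          · rcases h4 with h4 | h4
            · exact absurd h4 n3
            · exact absurd h4 hcc
          · exact Or.inr hw
      · rcases p3 c b c' b hbc.symm hbc'.symm z h1 h2 with h | h | ⟨w, hw, h3, h4⟩
        · exact absurd h.1 hcc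
        · exact absurd h.1.symm n2
        · rcases h3 with rfl | rfl
          · rcases h4 with h4 | h4
            · exact absurd h4 hcc
            · exact absurd h4.symm n2
          · exact Or.inr hw
    · rintro z (rfl | rfl)
      · exact ⟨Or.inl (hmem a c hca.symm).1, Or.inl (hmem a c' hca'.symm).1⟩
      · exact ⟨Or.inr (hmem c b hbc.symm).2, Or.inr (hmem c' b hbc'.symm).2⟩

end Pool.Agent.BS.H85
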